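import Mathlib

/-!
# Atoms off a coatom and coatoms off an atom in a modular relatively complemented lattice
-/

set_option autoImplicit false
set_option linter.unusedSectionVars false

namespace Pool.Agent.Helper19.MOD

/-- Hall's theorem from a kernel condition. -/
theorem hall_kernel19 {X Y : Type} [Fintype X] [DecidableEq Y] (T : X → Finset Y)
    (h : ∀ f : X → ℚ, (∀ y, (∑ x, if y ∈ T x then f x else 0) = 0) → ∀ x, f x = 0) :
    ∃ F : X → Y, Function.Injective F ∧ ∀ x, F x ∈ T x := by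
  classical
  apply (Finset.all_card_le_biUnion_card_iff_exists_injective T).mp
  intro s
  by_contra hcon
  push Not at hcon
  let φ : (↥s → ℚ) →ₗ[ℚ] (↥(s.biUnion T) → ℚ) :=
    { toFun := fun g y => ∑ x : s, if y.1 ∈ T x.1 then g x else 0
      map_add' := by
        intro g g'
        funext y
        simp only [Pi.add_apply]
        rw [← Finset.sum_add_distrib]
        apply Finset.sum_congr rfl
        intro x _
        split_ifs <;> simp
      map_smul' := by
        intro a g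
        funext y
        simp only [Pi.smul_apply, smul_eq_mul, RingHom.id_apply]
        rw [Finset.mul_sum]
        apply Finset.sum_congr rfl
        intro x _
        split_ifs <;> simp }
  have h1 : LinearMap.ker φ ≠ ⊥ := by
    apply LinearMap.ker_ne_bot_of_finrank_lt
    rw [Module.finrank_pi, Module.finrank_pi, Fintype.card_coe, Fintype.card_coe]
    exact hcon
  obtain ⟨g, hg, hg0⟩ := (Submodule.ne_bot_iff _).mp h1
  apply hg0
  have h2 := h (fun x => if hx : x ∈ s then g ⟨x, hx⟩ else 0) ?_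
  · funext x
    have h3 := h2 x.1
    simp only [x.2, dite_true] at h3
    exact h3
  · intro y
    have e1 : (∑ x, if y ∈ T x then (if hx : x ∈ s then g ⟨x, hx⟩ else 0) else 0) =
        ∑ x ∈ s, if y ∈ T x then (if hx : x ∈ s then g ⟨x, hx⟩ else 0) else 0 := by
      symm
      apply Finset.sum_subset (Finset.subset_univ _)
      intro x _ hx
      simp [hx]
    have e2 : (∑ x ∈ s, if y ∈ T x then (if hx : x ∈ s then g ⟨x, hx⟩ else 0) else 0) =
        ∑ x : s, if y ∈ T x.1 then g x else 0 := by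
      rw [← Finset.sum_coe_sort s]
      apply Finset.sum_congr rfl
      intro x _
      simp [x.2]
    rw [e1, e2]
    by_cases hy : y ∈ s.biUnion T
    · have h3 := congrFun (LinearMap.mem_ker.mp hg) ⟨y, hy⟩
      exact h3
    · apply Finset.sum_eq_zero
      intro x _
      rw [if_neg]
      intro h4
      exact hy (Finset.mem_biUnion.mpr ⟨x.1, x.2, h4⟩)

/-- Every element of an interval has a complement in it. -/
def RC19 (L : Type) [Lattice L] : Prop :=
  ∀ a b c : L, a ≤ b → b ≤ c → ∃ d, b ⊓ d = a ∧ b ⊔ d = c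

variable {L : Type} [Lattice L]

theorem RC19.dual (h : RC19 L) : RC19 Lᵒᵈ := fun a b c hab hbc => by
  obtain ⟨d, h1, h2⟩ := h (OrderDual.ofDual c) (OrderDual.ofDual b) (OrderDual.ofDual a) hbc hab
  exact ⟨OrderDual.toDual d, h2, h1⟩

variable [IsModularLattice L]

/-- A modular complemented lattice is relatively complemented. -/
theorem rc19_of_compl [BoundedOrder L] (h : ∀ b : L, ∃ d, b ⊓ d = ⊥ ∧ b ⊔ d = ⊤) : RC19 L := by
  intro a b c hab hbc
  obtain ⟨d, h1, h2⟩ := h b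
  refine ⟨(a ⊔ d) ⊓ c, ?_, ?_⟩
  · rw [← inf_assoc, inf_comm b, sup_inf_assoc_of_le d hab, inf_comm d b, h1, sup_bot_eq]
    exact inf_eq_left.mpr (hab.trans hbc)
  · rw [← sup_inf_assoc_of_le (a ⊔ d) hbc]
    have h3 : b ⊔ (a ⊔ d) = ⊤ := by
      rw [← sup_assoc, sup_eq_left.mpr hab, h2]
    rw [h3, top_inf_eq]

/-- Complements in an atomistic modular lattice. -/
theorem compl19_of_atomistic [BoundedOrder L] [Finite L]
    (hat : ∀ x : L, ∃ s : Finset L, (∀ a ∈ s, IsAtom a) ∧ s.sup id = x) :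
    ∀ b : L, ∃ d, b ⊓ d = ⊥ ∧ b ⊔ d = ⊤ := by
  intro b
  have hne : {d : L | b ⊓ d = ⊥}.Nonempty := ⟨⊥, inf_bot_eq b⟩
  obtain ⟨d, hd⟩ := (Set.toFinite {d : L | b ⊓ d = ⊥}).exists_maximal hne
  have hd1 : b ⊓ d = ⊥ := hd.1
  refine ⟨d, hd1, ?_⟩
  by_contra hcon
  obtain ⟨s, hs, hst⟩ := hat ⊤
  have hp : ∃ p ∈ s, ¬ p ≤ b ⊔ d := by
    by_contra h
    push Not at h
    apply hcon
    rw [eq_top_iff, ← hst]
    exact Finset.sup_le h
  obtain ⟨p, hp, hpb⟩ := hp
  have hpa := hs p hp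
  have h1 : b ⊓ (d ⊔ p) = ⊥ := by
    have h2 : (d ⊔ p) ⊓ (b ⊔ d) = d := by
      have h0 : p ⊓ (b ⊔ d) = ⊥ := by
        rcases hpa.le_iff.mp (inf_le_left : p ⊓ (b ⊔ d) ≤ p) with h | h
        · exact h
        · exact absurd (inf_eq_left.mp h) hpb
      rw [sup_inf_assoc_of_le p le_sup_right, h0, sup_bot_eq]
    have h3 : b ⊓ (d ⊔ p) ≤ d := calc
      b ⊓ (d ⊔ p) ≤ (d ⊔ p) ⊓ (b ⊔ d) := le_inf inf_le_right (inf_le_left.trans le_sup_left)
      _ = d := h2
    exact le_bot_iff.mp ((le_inf inf_le_left h3).trans hd1.le)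
  have h4 : d ⊔ p ≤ d := hd.2 h1 le_sup_left
  exact hpb ((le_sup_right.trans h4).trans le_sup_right)

theorem exists_pt19 [Finite L] (hrc : RC19 L) {lo X Y : L} (h1 : lo ≤ X) (h2 : X < Y) :
    ∃ D, lo ⋖ D ∧ D ≤ Y ∧ ¬ D ≤ X := by
  obtain ⟨d, hd1, hd2⟩ := hrc lo X Y h1 h2.le
  have hlt : lo < d := by
    have h0 : lo ≤ d := hd1 ▸ inf_le_right
    rcases h0.lt_or_eq with h | h
    · exact h
    · exfalso
      rw [← h, sup_eq_left.mpr h1] at hd2
      exact h2.ne hd2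
  obtain ⟨D, hD1, hD2⟩ := exists_covBy_le_of_lt hlt
  refine ⟨D, hD1, hD2.trans (hd2 ▸ le_sup_right), fun h => ?_⟩
  exact hD1.lt.not_ge (hd1 ▸ le_inf h hD2)

theorem cov19 {lo D X : L} (hD : lo ⋖ D) (h : lo ≤ X) (hn : ¬ D ≤ X) : X ⋖ X ⊔ D := by
  have h1 : D ⊓ X = lo := by
    rcases (le_inf hD.le h : lo ≤ D ⊓ X).lt_or_eq with h2 | h2
    · exfalso
      rcases (inf_le_left : D ⊓ X ≤ D).lt_or_eq with h3 | h3
      · exact hD.2 h2 h3
      · exact hn (inf_eq_left.mp h3)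
    · exact h2.symm
  have h2 : X ⋖ D ⊔ X := covBy_sup_of_inf_covBy_left (h1.symm ▸ hD)
  rwa [sup_comm] at h2

theorem eq_sup19 {lo D X Y : L} (hD : lo ⋖ D) (h : lo ≤ X) (hn : ¬ D ≤ X) (hXY : X ⋖ Y)
    (hDY : D ≤ Y) : Y = X ⊔ D := by
  have h1 : X ⊔ D ≤ Y := sup_le hXY.le hDY
  rcases h1.lt_or_eq with h2 | h2
  · exact absurd h2 (hXY.2 (cov19 hD h hn).lt)
  · exact h2.symm

theorem coat19 {X H Y M : L} (hXH : X ⋖ H) (hHM : H ⋖ M) (hXY : X ⋖ Y) (hYM : Y ≤ M)
    (hne : Y ≠ H) : Y ⋖ M := by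
  have h1 : Y ⊓ H = X := by
    rcases (le_inf hXY.le hXH.le : X ≤ Y ⊓ H).lt_or_eq with h | h
    · exfalso
      have h2 : Y ⊓ H = H := by
        rcases (inf_le_right : Y ⊓ H ≤ H).lt_or_eq with h3 | h3
        · exact absurd h3 (hXH.2 h)
        · exact h3
      have h3 : Y ⊓ H = Y := by
        rcases (inf_le_left : Y ⊓ H ≤ Y).lt_or_eq with h3 | h3
        · exact absurd h3 (hXY.2 h)
        · exact h3
      exact hne (h3.symm.trans h2)
    · exact h.symm
  have h2 : H ⋖ Y ⊔ H := covBy_sup_of_inf_covBy_left (h1.symm ▸ hXY)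
  have h3 : Y ⊔ H = M := by
    rcases (sup_le hYM hHM.le : Y ⊔ H ≤ M).lt_or_eq with h | h
    · exact absurd h (hHM.2 h2.lt)
    · exact h
  have h4 : Y ⋖ Y ⊔ H := covBy_sup_of_inf_covBy_right (h1.symm ▸ hXH)
  rwa [h3] at h4

/-- The double count. -/
theorem count19 [Fintype L] [DecidableEq L] [DecidableRel (α := L) (· ≤ ·)]
    {lo M X : L} (hlo : lo ≤ X) (hXM : X ≤ M) (DD : Finset L)
    (hDD : ∀ D ∈ DD, lo ⋖ D ∧ D ≤ M) (a : L → ℚ) (C : Finset L)
    (hC : ∀ Y, Y ∈ C ↔ X ⋖ Y ∧ Y ≤ M) :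
    ∑ Y ∈ C, ∑ D ∈ DD.filter (fun D => D ≤ Y), a D =
      (C.card : ℚ) * ∑ D ∈ DD.filter (fun D => D ≤ X), a D +
        (∑ D ∈ DD, a D - ∑ D ∈ DD.filter (fun D => D ≤ X), a D) := by
  have h1 : ∑ Y ∈ C, ∑ D ∈ DD.filter (fun D => D ≤ Y), a D =
      ∑ D ∈ DD, a D * ((C.filter (fun Y => D ≤ Y)).card : ℚ) := by
    simp only [Finset.sum_filter (s := DD)]
    rw [Finset.sum_comm]
    apply Finset.sum_congr rfl
    intro D _
    rw [← Finset.sum_filter, Finset.sum_const, nsmul_eq_mul, mul_comm]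
  have h2 : ∀ D ∈ DD, ((C.filter (fun Y => D ≤ Y)).card : ℚ) =
      if D ≤ X then (C.card : ℚ) else 1 := by
    intro D hD
    obtain ⟨hD1, hD2⟩ := hDD D hD
    by_cases h : D ≤ X
    · rw [if_pos h]
      congr 2
      apply Finset.filter_true_of_mem
      intro Y hY
      exact h.trans ((hC Y).mp hY).1.le
    · rw [if_neg h]
      have h3 : C.filter (fun Y => D ≤ Y) = {X ⊔ D} := by
        ext Y
        rw [Finset.mem_filter, Finset.mem_singleton]
        constructor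
        · rintro ⟨h4, h5⟩
          exact eq_sup19 hD1 hlo h ((hC Y).mp h4).1 h5
        · rintro rfl
          exact ⟨(hC _).mpr ⟨cov19 hD1 hlo h, sup_le hXM hD2⟩, le_sup_right⟩
      rw [h3]
      simp
  rw [h1, Finset.mul_sum, Finset.sum_filter, Finset.sum_filter, ← Finset.sum_sub_distrib,
    ← Finset.sum_add_distrib]
  apply Finset.sum_congr rfl
  intro D hD
  rw [h2 D hD]
  split_ifs <;> ring

/-- The rows are independent. -/
theorem kernel19 [Fintype L] [DecidableEq L] [DecidableRel (α := L) (· ≤ ·)] (hrc : RC19 L)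
    {lo K M e : L} (hloK : lo ≤ K) (hK : K ⋖ M) (he : lo ⋖ e) (heM : e ≤ M) (heK : ¬ e ≤ K)
    (DD : Finset L) (hDD : ∀ D ∈ DD, lo ⋖ D ∧ D ≤ M ∧ ¬ D ≤ K) (a : L → ℚ)
    (h0 : ∀ H, H ⋖ M → lo ≤ H → ¬ e ≤ H → ∑ D ∈ DD.filter (fun D => ¬ D ≤ H), a D = 0) :
    ∀ D ∈ DD, a D = 0 := by
  classical
  set g : L → ℚ := fun X => ∑ D ∈ DD.filter (fun D => D ≤ X), a D with hg
  have hadd : ∀ X, g X + ∑ D ∈ DD.filter (fun D => ¬ D ≤ X), a D = ∑ D ∈ DD, a D := fun X =>
    Finset.sum_filter_add_sum_filter_not _ _ _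
  have hgK : ∀ X, X ≤ K → g X = 0 := by
    intro X hX
    rw [hg]
    simp only
    rw [Finset.filter_eq_empty_iff.mpr, Finset.sum_empty]
    intro D hD h
    exact (hDD D hD).2.2 (h.trans hX)
  have hS : ∑ D ∈ DD, a D = 0 := by
    rw [← hadd K, hgK K le_rfl, h0 K hK hloK heK, add_zero]
  have hg1 : ∀ H, H ⋖ M → lo ≤ H → ¬ e ≤ H → g H = 0 := by
    intro H h1 h2 h3
    have h4 := hadd H
    rw [h0 H h1 h2 h3, hS, add_zero] at h4
    exact h4
  set C : L → Finset L := fun X => Finset.univ.filter (fun Y => X ⋖ Y ∧ Y ≤ M) with hCdef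
  have hC : ∀ X Y, Y ∈ C X ↔ X ⋖ Y ∧ Y ≤ M := fun X Y => by simp [hCdef]
  have hcount : ∀ X, lo ≤ X → X ≤ M → ∑ Y ∈ C X, g Y = ((C X).card : ℚ) * g X - g X := by
    intro X h1 h2
    have h3 := count19 h1 h2 DD (fun D hD => ⟨(hDD D hD).1, (hDD D hD).2.1⟩) a (C X) (hC X)
    rw [hS] at h3
    rw [hg]
    simp only
    rw [h3]
    ring
  have hg2 : ∀ H, H ⋖ M → lo ≤ H → g H = 0 := by
    intro H hH hlo
    by_cases heH : e ≤ H
    · have hne : H ≠ K := fun h => heK (h ▸ heH)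
      have hsup : H ⊔ K = M := by
        rcases (sup_le hH.le hK.le : H ⊔ K ≤ M).lt_or_eq with h | h
        · exfalso
          have h1 : H = H ⊔ K := by
            rcases (le_sup_left : H ≤ H ⊔ K).lt_or_eq with h2 | h2
            · exact absurd h (hH.2 h2)
            · exact h2
          have h2 : K = H ⊔ K := by
            rcases (le_sup_right : K ≤ H ⊔ K).lt_or_eq with h2 | h2
            · exact absurd h (hK.2 h2)
            · exact h2
          exact hne (h1.trans h2.symm)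
        · exact h
      have hXH : H ⊓ K ⋖ H := inf_covBy_of_covBy_sup_right (hsup.symm ▸ hK)
      have hloX : lo ≤ H ⊓ K := le_inf hlo hloK
      have hXM : H ⊓ K ≤ M := hXH.le.trans hH.le
      have heX : ¬ e ≤ H ⊓ K := fun h => heK (h.trans inf_le_right)
      have h1 := hcount (H ⊓ K) hloX hXM
      rw [hgK _ inf_le_right, mul_zero, sub_zero, Finset.sum_eq_single H] at h1
      · exact h1
      · intro Y hY hYH
        obtain ⟨h2, h3⟩ := (hC _ Y).mp hY
        apply hg1 Y (coat19 hXH hH h2 h3 hYH) (hloX.trans h2.le)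
        intro h4
        apply hYH
        rw [eq_sup19 he hloX heX h2 h4, ← eq_sup19 he hloX heX hXH heH]
      · intro h2
        exact absurd ((hC _ H).mpr ⟨hXH, hH.le⟩) h2
    · exact hg1 H hH hlo heH
  have hg3 : ∀ X, lo ≤ X → X ≤ M → g X = 0 := by
    intro X
    induction X using WellFoundedGT.induction with
    | ind X ih =>
      intro hlo hXM
      rcases hXM.lt_or_eq with hlt | rfl
      · by_cases hco : X ⋖ M
        · exact hg2 X hco hlo
        · obtain ⟨Y0, hY1, hY2⟩ := exists_covBy_le_of_lt hlt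
          have hY3 : Y0 < M := lt_of_le_of_ne hY2 (fun h => hco (h ▸ hY1))
          obtain ⟨D, hD1, hD2, hD3⟩ := exists_pt19 hrc hY1.le hY3
          have hDne : D ≠ Y0 := fun h => hD3 (h ▸ le_rfl)
          have hcard : 2 ≤ (C X).card := by
            have h1 : ({D, Y0} : Finset L) ⊆ C X := by
              intro Y hY
              rw [Finset.mem_insert, Finset.mem_singleton] at hY
              rcases hY with rfl | rfl
              · exact (hC X _).mpr ⟨hD1, hD2⟩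
              · exact (hC X _).mpr ⟨hY1, hY2⟩
            have h2 := Finset.card_le_card h1
            rwa [Finset.card_pair hDne] at h2
          have h1 := hcount X hlo hXM
          rw [Finset.sum_eq_zero] at h1
          · have h2 : (((C X).card : ℚ) - 1) * g X = 0 := by linarith
            rcases mul_eq_zero.mp h2 with h3 | h3
            · exfalso
              have h4 : (2 : ℚ) ≤ (C X).card := by exact_mod_cast hcard
              linarith
            · exact h3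
          · intro Y hY
            obtain ⟨h2, h3⟩ := (hC X Y).mp hY
            exact ih Y h2.lt (hlo.trans h2.le) h3
      · have h1 : g X = ∑ D ∈ DD, a D := by
          rw [hg]
          simp only
          rw [Finset.filter_true_of_mem]
          intro D hD
          exact (hDD D hD).2.1
        rw [h1, hS]
  intro D hD
  obtain ⟨h1, h2, h3⟩ := hDD D hD
  have h4 := hg3 D h1.le h2
  have h5 : DD.filter (fun D' => D' ≤ D) = {D} := by
    ext D'
    rw [Finset.mem_filter, Finset.mem_singleton]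
    constructor
    · rintro ⟨h6, h7⟩
      obtain ⟨h8, -, -⟩ := hDD D' h6
      rcases h7.lt_or_eq with h9 | h9
      · exact absurd h9 (h1.2 h8.lt)
      · exact h9
    · rintro rfl
      exact ⟨hD, le_rfl⟩
  rw [hg] at h4
  simp only [h5, Finset.sum_singleton] at h4
  exact h4

/-- Atoms off a coatom go injectively to coatoms off an atom. -/
theorem inj19 [Finite L] (hrc : RC19 L)
    {lo K M e : L} (hloK : lo ≤ K) (hK : K ⋖ M) (he : lo ⋖ e) (heM : e ≤ M) (heK : ¬ e ≤ K) :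
    ∃ F : L → L, (∀ D, lo ⋖ D → D ≤ M → ¬ D ≤ K → F D ⋖ M ∧ lo ≤ F D ∧ ¬ e ≤ F D ∧ ¬ D ≤ F D) ∧
      (∀ D, lo ⋖ D → D ≤ M → ¬ D ≤ K → ∀ D', lo ⋖ D' → D' ≤ M → ¬ D' ≤ K → F D = F D' →
        D = D') := by
  classical
  have : Fintype L := Fintype.ofFinite L
  set DD : Finset L := Finset.univ.filter (fun D => lo ⋖ D ∧ D ≤ M ∧ ¬ D ≤ K) with hDDdef
  have hDD : ∀ D, D ∈ DD ↔ lo ⋖ D ∧ D ≤ M ∧ ¬ D ≤ K := fun D => by simp [hDDdef]
  obtain ⟨F, hF1, hF2⟩ := hall_kernel19 (X := DD) (Y := L)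
    (fun D => Finset.univ.filter (fun H => H ⋖ M ∧ lo ≤ H ∧ ¬ e ≤ H ∧ ¬ D.1 ≤ H))
    (by
      intro f hf D
      have h1 := kernel19 hrc hloK hK he heM heK DD (fun D hD => (hDD D).mp hD)
        (fun D => if h : D ∈ DD then f ⟨D, h⟩ else 0)
        (by
          intro H h1 h2 h3
          have h4 := hf H
          rw [Finset.sum_filter, ← Finset.sum_coe_sort DD]
          refine Eq.trans ?_ h4
          apply Finset.sum_congr rfl
          intro x _
          simp only [Finset.mem_filter, Finset.mem_univ, true_and, x.2, dite_true, h1, h2, h3,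
            not_false_eq_true])
        D.1 D.2
      simp only [D.2, dite_true] at h1
      exact h1)
  refine ⟨fun D => if h : D ∈ DD then F ⟨D, h⟩ else D, ?_, ?_⟩
  · intro D h1 h2 h3
    have hD := (hDD D).mpr ⟨h1, h2, h3⟩
    simp only [hD, dite_true]
    have h4 := hF2 ⟨D, hD⟩
    rw [Finset.mem_filter] at h4
    exact h4.2
  · intro D h1 h2 h3 D' h1' h2' h3' h
    have hD := (hDD D).mpr ⟨h1, h2, h3⟩
    have hD' := (hDD D').mpr ⟨h1', h2', h3'⟩
    simp only [hD, hD', dite_true] at h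
    exact congrArg Subtype.val (hF1 h)

/-- **The matching**: a bijection from the atoms `D` of the interval `[lo, M]` which are not below
the coatom `K` to the coatoms `H` which are not above the atom `e`, with `D` not below `H`. -/
theorem match19 [Finite L] (hrc : RC19 L)
    {lo K M e : L} (hloK : lo ≤ K) (hK : K ⋖ M) (he : lo ⋖ e) (heM : e ≤ M) (heK : ¬ e ≤ K) :
    ∃ F : L → L, (∀ D, lo ⋖ D → D ≤ M → ¬ D ≤ K → F D ⋖ M ∧ lo ≤ F D ∧ ¬ e ≤ F D ∧ ¬ D ≤ F D) ∧
      (∀ D, lo ⋖ D → D ≤ M → ¬ D ≤ K → ∀ D', lo ⋖ D' → D' ≤ M → ¬ D' ≤ K → F D = F D' →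
        D = D') ∧
      (∀ H, H ⋖ M → lo ≤ H → ¬ e ≤ H → ∃ D, lo ⋖ D ∧ D ≤ M ∧ ¬ D ≤ K ∧ F D = H) := by
  classical
  have : Fintype L := Fintype.ofFinite L
  obtain ⟨F, hF1, hF2⟩ := inj19 hrc hloK hK he heM heK
  obtain ⟨G, hG1, hG2⟩ := inj19 (L := Lᵒᵈ) hrc.dual (lo := OrderDual.toDual M)
    (K := OrderDual.toDual e) (M := OrderDual.toDual lo) (e := OrderDual.toDual K)
    heM (by exact he.toDual) (by exact hK.toDual) hloK heK
  refine ⟨F, hF1, hF2, ?_⟩
  set DD : Finset L := Finset.univ.filter (fun D => lo ⋖ D ∧ D ≤ M ∧ ¬ D ≤ K) with hDDdef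
  have hDD : ∀ D, D ∈ DD ↔ lo ⋖ D ∧ D ≤ M ∧ ¬ D ≤ K := fun D => by simp [hDDdef]
  set HH : Finset L := Finset.univ.filter (fun H => H ⋖ M ∧ lo ≤ H ∧ ¬ e ≤ H) with hHHdef
  have hHH : ∀ H, H ∈ HH ↔ H ⋖ M ∧ lo ≤ H ∧ ¬ e ≤ H := fun H => by simp [hHHdef]
  have hmap : ∀ D ∈ DD, F D ∈ HH := by
    intro D hD
    obtain ⟨h1, h2, h3⟩ := (hDD D).mp hD
    obtain ⟨k1, k2, k3, -⟩ := hF1 D h1 h2 h3
    exact (hHH _).mpr ⟨k1, k2, k3⟩
  have hinj : Set.InjOn F (DD : Set L) := by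
    intro D hD D' hD' h
    obtain ⟨h1, h2, h3⟩ := (hDD D).mp hD
    obtain ⟨h1', h2', h3'⟩ := (hDD D').mp hD'
    exact hF2 D h1 h2 h3 D' h1' h2' h3' h
  have hcard : HH.card ≤ DD.card := by
    apply Finset.card_le_card_of_injOn (fun H => OrderDual.ofDual (G (OrderDual.toDual H)))
    · intro H hH
      obtain ⟨h1, h2, h3⟩ := (hHH H).mp hH
      obtain ⟨k1, k2, k3, -⟩ := hG1 (OrderDual.toDual H) h1.toDual h2 h3
      exact (hDD _).mpr ⟨k1.ofDual, k2, k3⟩
    · intro H hH H' hH' h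
      obtain ⟨h1, h2, h3⟩ := (hHH H).mp hH
      obtain ⟨h1', h2', h3'⟩ := (hHH H').mp hH'
      exact hG2 (OrderDual.toDual H) h1.toDual h2 h3 (OrderDual.toDual H') h1'.toDual h2' h3' h
  have hsurj := Finset.surj_on_of_inj_on_of_card_le (s := DD) (t := HH) (fun D _ => F D) hmap
    (fun D D' hD hD' h => hinj hD hD' h) hcard
  intro H h1 h2 h3
  obtain ⟨D, hD, h⟩ := hsurj H ((hHH H).mpr ⟨h1, h2, h3⟩)
  obtain ⟨k1, k2, k3⟩ := (hDD D).mp hD
  exact ⟨D, k1, k2, k3, h.symm⟩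

end Pool.Agent.Helper19.MOD
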